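import Pool.Agent.ARD.All

/-!
# MP_7dc157_al: (ARC) for a large class of local rings; a ring with (ARC) and without (HWC)

`ARC` and `HWC` are (ARC) and (HWC) of the problem and `Gorenstein` is the condition of (B), in the
words of the frozen statement S02051.  `InC` is a class of Noetherian local rings with (ARC): it is
generated, under flat descent, lifting from and passing to quotients by regular elements, and the
codimension one principle, by the fields and the rings which are flat locally quasi-homogeneous
Gorenstein of characteristic zero, of any dimension.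
-/

set_option autoImplicit false

namespace Pool.Agent.Results.MP_7dc157_al.ArcAnyDimension

/-- A Noetherian local ring `R` is Gorenstein, in the words of the frozen statement: some sequence
in the maximal ideal is regular of length `dim R` and generates an irreducible ideal. -/
def Gorenstein (R : Type) [CommRing R] [IsLocalRing R] : Prop :=
  ∃ xs : List R, (∀ x ∈ xs, x ∈ IsLocalRing.maximalIdeal R) ∧
    RingTheory.Sequence.IsRegular R xs ∧
    ((xs.length : ℕ∞) : WithBot ℕ∞) = ringKrullDim R ∧
    InfIrred (Ideal.span {r : R | r ∈ xs})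

/-- (ARC). -/
def ARC (R : Type) [CommRing R] : Prop :=
  ∀ [CategoryTheory.HasExt.{0} (ModuleCat.{0} R)],
    ∀ (M : Type) [AddCommGroup M] [Module R M] [Module.Finite R M],
      (∀ i : ℕ, 1 ≤ i →
        Subsingleton (CategoryTheory.Abelian.Ext (ModuleCat.of R M) (ModuleCat.of R M) i) ∧
        Subsingleton (CategoryTheory.Abelian.Ext (ModuleCat.of R M) (ModuleCat.of R R) i)) →
      Module.Free R M

/-- (HWC). -/
def HWC (R : Type) [CommRing R] : Prop :=
  ∀ (M : Type) [AddCommGroup M] [Module R M] [Module.Finite R M] [NoZeroSMulDivisors R M],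
    Module.IsReflexive R (TensorProduct R M (Module.Dual R M)) → Module.Free R M

/-- The local ring `S` with maximal ideal `m` contains its residue field `K`, is Gorenstein and
quasi-homogeneous: there are a `K`-derivation `D` of `S` with `D m ⊆ m`, a sequence `xs` as in
`Gorenstein` consisting of eigenvectors `D x = d x`, `d` a positive integer (depending on `x`),
and an integer `n` with `(D - 1) ... (D - n) m ⊆ (xs)`. -/
structure QuasiHomogeneousGorenstein (K S : Type) [Field K] [CommRing S] [IsLocalRing S]
    [Algebra K S] : Prop where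
  residue : ∀ a : S, ∃ k : K, a - algebraMap K S k ∈ IsLocalRing.maximalIdeal S
  euler : ∃ (D : Derivation K S S) (xs : List S) (n : ℕ),
    (∀ a ∈ IsLocalRing.maximalIdeal S, D a ∈ IsLocalRing.maximalIdeal S) ∧
    (∀ x ∈ xs, x ∈ IsLocalRing.maximalIdeal S) ∧
    (∀ x ∈ xs, ∃ d : ℕ, 0 < d ∧ D x = (d : S) * x) ∧
    RingTheory.Sequence.IsRegular S xs ∧
    ((xs.length : ℕ∞) : WithBot ℕ∞) = ringKrullDim S ∧
    InfIrred (Ideal.span {r : S | r ∈ xs}) ∧
    ∀ a ∈ IsLocalRing.maximalIdeal S,
      (Polynomial.aeval (D.toLinearMap : Module.End K S)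
        (∏ w ∈ Finset.Icc 1 n, (Polynomial.X - Polynomial.C (w : K)))) a ∈
          Ideal.span {r : S | r ∈ xs}

/-- The least class of Noetherian local rings which contains the fields, and
a ring `R` with a flat local homomorphism to a ring of the class,
a ring `R` with a flat local homomorphism to a quasi-homogeneous Gorenstein ring of characteristic
zero, if the localisations of `R` at its associated primes are in the class,
a ring `R` with `R / x R` in the class, `x` a nonzerodivisor in the maximal ideal,
the ring `R / x R` for `R` in the class and `x R`-adically complete, `x` a nonzerodivisor in the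
maximal ideal,
a Gorenstein ring `R` each of whose primes `p` of height at most one lies in a prime `q p` such
that the localisation of `R` at `q p` is in the class, and
a ring `R` containing a field `K` with a prime `q`, such that the localisation of `R` at `q` is in
the class and `q` contains every proper ideal of `R` which is stable under all `K`-derivations. -/
inductive InC : (R : Type) → [CommRing R] → [IsLocalRing R] → Prop
  | field (R : Type) [CommRing R] [IsLocalRing R] : IsField R → InC R
  | descent (R S : Type) [CommRing R] [IsLocalRing R] [IsNoetherianRing R] [CommRing S]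
      [IsLocalRing S] [IsNoetherianRing S] [Algebra R S] [Module.Flat R S]
      [IsLocalHom (algebraMap R S)] : InC S → InC R
  | quasiHomogeneous (K R S : Type) [Field K] [CharZero K] [CommRing R] [IsLocalRing R]
      [IsNoetherianRing R] [CommRing S] [IsLocalRing S] [IsNoetherianRing S] [Algebra K S]
      [Algebra R S] [Module.Flat R S] [IsLocalHom (algebraMap R S)] :
      QuasiHomogeneousGorenstein K S →
      (∀ (P : Ideal R) [P.IsPrime], P ∈ associatedPrimes R R → InC (Localization.AtPrime P)) →
      InC R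
  | lifting (R : Type) [CommRing R] [IsLocalRing R] [IsNoetherianRing R] (x : R)
      [IsLocalRing (R ⧸ Ideal.span {x})] : x ∈ IsLocalRing.maximalIdeal R →
      x ∈ nonZeroDivisors R → InC (R ⧸ Ideal.span {x}) → InC R
  | quotient (R : Type) [CommRing R] [IsLocalRing R] [IsNoetherianRing R] (x : R)
      [IsAdicComplete (Ideal.span {x}) R] [IsLocalRing (R ⧸ Ideal.span {x})] :
      x ∈ IsLocalRing.maximalIdeal R → x ∈ nonZeroDivisors R → InC R →
      InC (R ⧸ Ideal.span {x})
  | codimOne (R : Type) [CommRing R] [IsLocalRing R] [IsNoetherianRing R]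
      (q : Ideal R → Ideal R) [∀ p, (q p).IsPrime] : Gorenstein R →
      (∀ p : Ideal R, p.IsPrime → p.height ≤ 1 → p ≤ q p) →
      (∀ p : Ideal R, p.IsPrime → p.height ≤ 1 → InC (Localization.AtPrime (q p))) → InC R
  | differential (K R : Type) [Field K] [CommRing R] [IsLocalRing R] [IsNoetherianRing R]
      [Algebra K R] (q : Ideal R) [q.IsPrime] :
      (∀ J : Ideal R, J ≠ ⊤ → (∀ D : Derivation K R R, ∀ a ∈ J, D a ∈ J) → J ≤ q) →
      InC (Localization.AtPrime q) → InC R

/-- `G` is a symmetric numerical semigroup with Frobenius number `F`. -/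
def IsSymmetric (G : AddSubmonoid ℕ) (F : ℕ) : Prop :=
  (∀ n, F < n → n ∈ G) ∧ ∀ n, n ≤ F → (n ∈ G ↔ F - n ∉ G)

/-- The semigroup ring `K[[G]]`: the power series all of whose exponents are in `G`. -/
def SR (G : AddSubmonoid ℕ) (K : Type) [Field K] : Subring (PowerSeries K) where
  carrier := {f | ∀ n, PowerSeries.coeff n f ≠ 0 → n ∈ G}
  zero_mem' := fun n hn => absurd (map_zero _) hn
  one_mem' := by
    intro n hn
    rw [PowerSeries.coeff_one] at hn
    split_ifs at hn with h
    · rw [h]; exact G.zero_mem
    · exact absurd rfl hn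
  add_mem' := by
    intro f g hf hg n hn
    by_contra h
    apply hn
    have h1 : PowerSeries.coeff n f = 0 := by by_contra h1; exact h (hf n h1)
    have h2 : PowerSeries.coeff n g = 0 := by by_contra h2; exact h (hg n h2)
    rw [map_add, h1, h2, add_zero]
  neg_mem' := by
    intro f hf n hn
    apply hf n
    intro h
    apply hn
    rw [map_neg, h, neg_zero]
  mul_mem' := by
    intro f g hf hg n hn
    rw [PowerSeries.coeff_mul] at hn
    obtain ⟨p, hp, hne⟩ := Finset.exists_ne_zero_of_sum_ne_zero hn
    rw [← Finset.HasAntidiagonal.mem_antidiagonal.1 hp]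
    exact G.add_mem (hf _ (left_ne_zero_of_mul hne)) (hg _ (right_ne_zero_of_mul hne))

/-- a symmetric semigroup as a structure -/
def sg (G : AddSubmonoid ℕ) (F : ℕ) (h : IsSymmetric G F) : HWG.SG where
  G := fun n => n ∈ G
  F := F
  zero := G.zero_mem
  add := fun _ _ ha hb => G.add_mem ha hb
  big := h.1
  sym := h.2

theorem SR_eq (G : AddSubmonoid ℕ) (F : ℕ) (h : IsSymmetric G F) (K : Type) [Field K] :
    SR G K = (sg G F h).R K := rfl

/-- From the hypotheses of the class to those of the proof. -/
theorem exists_QD {K S : Type} [Field K] [CommRing S] [IsLocalRing S] [IsNoetherianRing S]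
    [Algebra K S] (hQ : QuasiHomogeneousGorenstein K S) :
    ∃ (D : Derivation K S S) (L : List (S × ℕ)), ARD.QD K S D L := by
  obtain ⟨D, xs, n, h1, h2, h3, h4, h5, h6, h7⟩ := hQ.euler
  obtain ⟨L, rfl, hL⟩ := ARD.exists_weights D xs h3
  exact ⟨D, L,
    { max := h1
      res := hQ.residue
      mem := fun p hp => h2 _ (List.mem_map.2 ⟨p, hp, rfl⟩)
      pos := fun p hp => (hL p hp).1
      eig := fun p hp => (hL p hp).2
      reg := h4.toIsWeaklyRegular
      irr := h6
      fin := ARD.FNDd hQ.residue _ (ARD.thm_DIM S _ h4 h5)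
      wt := ⟨n, h7⟩ }⟩

theorem gorL_of {R : Type} [CommRing R] [IsLocalRing R] [IsNoetherianRing R] {xs : List R}
    (h1 : ∀ x ∈ xs, x ∈ IsLocalRing.maximalIdeal R) (h2 : RingTheory.Sequence.IsRegular R xs)
    (h3 : ((xs.length : ℕ∞) : WithBot ℕ∞) = ringKrullDim R)
    (h4 : InfIrred (Ideal.span {r : R | r ∈ xs})) : ARD.GorL R xs where
  mem := h1
  reg := h2.toIsWeaklyRegular
  irr := h4
  art := ARD.thm_DIM R _ h2 h3

/-- The rings of the class satisfy (ARC), in terms of covers. -/
theorem arce_of_InC {R : Type} [CommRing R] [IsLocalRing R] (h : InC R) : ARD.ARCe R := by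
  induction h with
  | field R h => exact ARD.ARCe_field R h
  | descent R S h ih => exact ARD.cl_DES R S ih
  | quasiHomogeneous K R S hQ h ih =>
    obtain ⟨D, L, hD⟩ := exists_QD hQ
    exact ARD.cl_GEN K R S D L hD fun P _ hP => ih P hP
  | lifting R x hx hx' h ih =>
    exact ARD.cl_LIF R x hx (fun r hr => (mem_nonZeroDivisors_iff.1 hx').1 r hr) ih
  | quotient R x hx hx' h ih =>
    exact ARD.thm_LFT R x hx (fun r hr => (mem_nonZeroDivisors_iff.1 hx').1 r hr) ih
  | codimOne R q hG hle h ih =>
    obtain ⟨xs, h1, h2, h3, h4⟩ := hG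
    exact ARD.cl_CDK R xs (gorL_of h1 h2 h3 h4) h3 fun p hp hh =>
      ⟨q p, inferInstance, hle p hp hh, ih p hp hh⟩
  | differential K R q h1 h2 ih => exact ARD.cl_DIF K R q h1 ih

/-- The converse of `exists_QD`. -/
theorem qhg_of_QD {K S : Type} [Field K] [CommRing S] [IsLocalRing S] [IsNoetherianRing S]
    [Algebra K S] {D : Derivation K S S} {L : List (S × ℕ)} (h : ARD.QD K S D L) :
    QuasiHomogeneousGorenstein K S := by
  obtain ⟨n, hn⟩ := h.wt
  obtain ⟨h1, h2⟩ := ARD.cl_GLD S (ARD.el L) h.gor
  refine ⟨h.res, D, ARD.el L, n, h.max, h.gor.mem, ?_, h1, h2, h.irr, hn⟩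
  intro x hx
  obtain ⟨p, hp, rfl⟩ := List.mem_map.1 hx
  exact ⟨p.2, h.pos p hp, h.eig p hp⟩

theorem gorenstein_of_GorL {R : Type} [CommRing R] [IsLocalRing R] [IsNoetherianRing R]
    {xs : List R} (h : ARD.GorL R xs) : Gorenstein R := by
  obtain ⟨h1, h2⟩ := ARD.cl_GLD R xs h
  exact ⟨xs, h.mem, h1, h2, h.irr⟩

/-- The localisations of a reduced ring at its associated primes are fields. -/
theorem isField_loc {R : Type} [CommRing R] [IsReduced R] [IsNoetherianRing R] (P : Ideal R)
    [hP : P.IsPrime]
    (hA : P ∈ associatedPrimes R R) : IsField (Localization.AtPrime P) := by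
  obtain ⟨-, x, hx⟩ := isAssociatedPrime_iff.1 hA
  have hmem : ∀ a, a ∈ P ↔ a * x = 0 := by
    intro a
    rw [hx, Submodule.mem_colon_singleton, Submodule.mem_bot, smul_eq_mul]
  have hx0 : x ∉ P := by
    intro h
    have h1 : x * x = 0 := (hmem x).1 h
    have h2 : x = 0 := by
      have h3 : x ^ 2 = 0 := by rw [pow_two, h1]
      exact pow_eq_zero_iff (two_ne_zero) |>.1 h3
    exact hP.ne_top ((Ideal.eq_top_iff_one _).2 ((hmem 1).2 (by rw [h2, mul_zero])))
  rw [IsLocalRing.isField_iff_maximalIdeal_eq, ← Localization.AtPrime.map_eq_maximalIdeal,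
    Ideal.map_eq_bot_iff_le_ker]
  intro a ha
  rw [RingHom.mem_ker]
  exact (IsLocalization.map_eq_zero_iff P.primeCompl _ a).2
    ⟨⟨x, hx0⟩, by rw [mul_comm]; exact (hmem a).1 ha⟩

/-- Reduced quasi-homogeneous Gorenstein rings are in the class. -/
theorem InC_of_qhg (K S : Type) [Field K] [CharZero K] [CommRing S] [IsLocalRing S]
    [IsNoetherianRing S] [IsReduced S] [Algebra K S] (h : QuasiHomogeneousGorenstein K S) :
    InC S := by
  have : IsLocalHom (algebraMap S S) := ⟨fun a ha => ha⟩
  exact InC.quasiHomogeneous K S S h fun P _ hP => InC.field _ (isField_loc P hP)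

/-- The class is invariant under isomorphisms. -/
theorem InC_iso {R S : Type} [CommRing R] [IsLocalRing R] [IsNoetherianRing R] [CommRing S]
    [IsLocalRing S] [IsNoetherianRing S] (e : R ≃+* S) (h : InC S) : InC R := by
  let : Algebra R S := e.toRingHom.toAlgebra
  have : IsLocalHom (algebraMap R S) := ⟨fun a ha => by
    have h1 : IsUnit (e a) := ha
    have h2 := h1.map e.symm
    rwa [RingEquiv.symm_apply_apply] at h2⟩
  let l : R ≃ₗ[R] S :=
    { toFun := e
      invFun := e.symm
      map_add' := map_add e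
      map_smul' := fun r x => by
        show e (r * x) = e r * e x
        exact map_mul e r x
      left_inv := e.symm_apply_apply
      right_inv := e.apply_symm_apply }
  have : Module.Flat R S := Module.Flat.of_linearEquiv l.symm
  exact InC.descent R S h

/-- the principal case: a domain whose localisation is a discrete valuation ring -/
theorem InC_principal {R : Type} [CommRing R] [IsDomain R] [IsLocalRing R] [IsNoetherianRing R]
    (x : R) (hx : x ≠ 0) (h : IsLocalRing.maximalIdeal R = Ideal.span {x}) : InC R := by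
  have hmax : (Ideal.span {x}).IsMaximal := by
    rw [← h]
    exact IsLocalRing.maximalIdeal.isMaximal R
  have hf : IsField (R ⧸ Ideal.span {x}) :=
    (Ideal.Quotient.maximal_ideal_iff_isField_quotient _).1 hmax
  have : IsLocalRing (R ⧸ Ideal.span {x}) := by
    let := hf.toField
    infer_instance
  refine InC.lifting R x ?_ ?_ (InC.field _ hf)
  · rw [h]
    exact Ideal.mem_span_singleton_self x
  · exact mem_nonZeroDivisors_of_ne_zero hx

/-- The completion of a quasi-homogeneous Gorenstein ring is one. -/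
theorem qhg_completion {K S : Type} [Field K] [CommRing S] [IsLocalRing S] [IsNoetherianRing S]
    [Algebra K S] (h : QuasiHomogeneousGorenstein K S) :
    ∃ _ : IsNoetherianRing (AdicCompletion (IsLocalRing.maximalIdeal S) S),
      QuasiHomogeneousGorenstein K (AdicCompletion (IsLocalRing.maximalIdeal S) S) := by
  obtain ⟨D, L, hD⟩ := exists_QD h
  have h1 := ARD.noeth_adic S (IsLocalRing.maximalIdeal S)
  exact ⟨h1, qhg_of_QD (ARD.QDC hD)⟩

/-- Graded rings. -/
theorem graded {K A : Type} [Field K] [CommRing A] [Algebra K A] [IsNoetherianRing A]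
    (𝒜 : ℕ → Submodule K A) [GradedAlgebra 𝒜] (h0 : ∀ a ∈ 𝒜 0, ∃ c : K, algebraMap K A c = a)
    (m : Ideal A) [m.IsPrime] (hm : ∀ a, a ∈ m ↔ GradedRing.proj 𝒜 0 a = 0)
    (hG : Gorenstein (Localization.AtPrime m)) :
    QuasiHomogeneousGorenstein K (Localization.AtPrime m) := by
  obtain ⟨xs, h1, h2, h3, h4⟩ := hG
  obtain ⟨D, L, h⟩ := ARD.cl_QDG K A 𝒜 h0 m hm xs (gorL_of h1 h2 h3 h4)
  exact qhg_of_QD h

section semigroup

open ARD

variable (S : HWG.SG)

/-- Characteristic zero. -/
theorem sg_zero (K : Type) [Field K] [CharZero K] [IsLocalRing (S.R K)]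
    [IsNoetherianRing (S.R K)]
    (hmax : ∀ x : S.R K, x ∈ IsLocalRing.maximalIdeal (S.R K) ↔
      PowerSeries.coeff 0 (x : PowerSeries K) = 0)
    (hG : HWC.GorOne (S.R K)) (hP : HWC.Pkg (S.R K)) : InC (S.R K) := by
  obtain ⟨hA, D, y, w, h⟩ := ARS.thm_SGQ S K hmax hP
  obtain ⟨hdim, xs, h1, h2, h3, h4⟩ := hG
  have hGL := gorL_of h1 h2 h3 h4
  have hlen : ([y] : List (S.R K)).length = xs.length := by
    have h5 : ((xs.length : ℕ∞) : WithBot ℕ∞) = ((1 : ℕ) : WithBot ℕ∞) := by
      rw [h3, hdim]
      rfl
    have h6 : xs.length = 1 := by exact_mod_cast h5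
    rw [h6]
    rfl
  have hI : Ideal.ofList [y] = Ideal.span {y} := by
    rw [Ideal.ofList_singleton]
  have hreg : Rg (S.R K) [y] (S.R K) := by
    refine (RingTheory.Sequence.isWeaklyRegular_cons_iff (S.R K) y []).2
      ⟨?_, RingTheory.Sequence.IsWeaklyRegular.nil _ _⟩
    intro a b hab
    exact mul_left_cancel₀ h.ne hab
  have hmem : ∀ x ∈ [y], x ∈ IsLocalRing.maximalIdeal (S.R K) := by
    intro x hx
    rw [List.mem_singleton.1 hx]
    exact h.mem
  have hy := cl_GII (S.R K) xs [y] hGL hmem hlen hreg
  have hQ : QD K (S.R K) D [(y, w)] :=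
    { max := h.max
      res := h.res
      mem := by
        intro p hp
        rw [List.mem_singleton.1 hp]
        exact h.mem
      pos := by
        intro p hp
        rw [List.mem_singleton.1 hp]
        exact h.pos
      eig := by
        intro p hp
        rw [List.mem_singleton.1 hp]
        exact h.eig
      reg := hreg
      irr := hy.irr
      fin := by
        have h7 := h.fin
        rw [← hI] at h7
        exact h7
      wt := by
        have h7 := h.wt
        rw [← hI] at h7
        exact h7 }
  exact InC_of_qhg K (S.R K) (qhg_of_QD hQ)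

/-- Witt vectors have characteristic zero. -/
theorem witt_charZero (p : ℕ) [Fact p.Prime] (k : Type) [Field k] [CharP k p]
    [PerfectRing k p] : CharZero (WittVector p k) := by
  have hp : p.Prime := Fact.out
  have hp0 : (p : WittVector p k) ≠ 0 := (WittVector.irreducible p).ne_zero
  refine charZero_of_inj_zero fun n hn => ?_
  by_contra hn0
  obtain ⟨a, m, hm, rfl⟩ := Nat.exists_eq_pow_mul_and_not_dvd hn0 p hp.ne_one
  rw [Nat.cast_mul, Nat.cast_pow] at hn
  rcases mul_eq_zero.1 hn with h | h
  · exact pow_ne_zero a hp0 h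
  · have h1 : ((m : ℕ) : k) = 0 := by
      have h2 := congrArg (WittVector.constantCoeff (p := p) (R := k)) h
      rwa [map_natCast, map_zero] at h2
    exact hm ((CharP.cast_eq_zero_iff k p m).1 h1)

/-- A nonzero prime in a prime of height one is this prime. -/
theorem eq_of_height_one {R : Type} [CommRing R] [IsDomain R] [IsNoetherianRing R]
    (I Q : Ideal R) [I.IsPrime] [Q.IsPrime] (h0 : I ≠ ⊥) (hle : I ≤ Q) (hQ : Q.height = 1) :
    I = Q := by
  refine Ideal.eq_of_le_of_height_le I hle ?_
  have h1 : (⊥ : Ideal R).height < I.height :=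
    Ideal.height_strict_mono_of_isPrime (bot_lt_iff_ne_bot.2 h0)
  rw [hQ]
  exact Order.one_le_iff_pos.2 (lt_of_le_of_lt zero_le h1)

/-- The height one primes of `V[[G]]`. -/
theorem sg_height_one (V K : Type) [CommRing V] [IsDomain V] [CharZero V]
    [IsDiscreteValuationRing V] [CommRing K] [IsDomain K] (r : V →+* K) (p : ℕ)
    (hp : Irreducible (p : V)) (hr : Function.Surjective r)
    (hker : RingHom.ker r = Ideal.span {(p : V)}) [IsLocalRing (SV S V)]
    [IsNoetherianRing (SV S V)] (Q : Ideal (SV S V)) [Q.IsPrime] (hQ : Q.height = 1) :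
    InC (Localization.AtPrime Q) := by
  have hN : IsNoetherianRing (Localization.AtPrime Q) :=
    IsLocalization.isNoetherianRing Q.primeCompl _ inferInstance
  by_cases hpQ : (p : SV S V) ∈ Q
  · obtain ⟨φ, hφ, hφk, -⟩ := cl_SWQ S V K r (p : V) hr hker
    rw [map_natCast] at hφk
    have hprime : (Ideal.span {(p : SV S V)}).IsPrime := by
      rw [← hφk]
      exact RingHom.ker_isPrime φ
    have hp0 : (p : SV S V) ≠ 0 := by
      intro h
      have h1 := congrArg (ev S V) h
      rw [map_natCast, map_zero] at h1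
      exact hp.ne_zero h1
    have hle : Ideal.span {(p : SV S V)} ≤ Q := (Ideal.span_singleton_le_iff_mem _).2 hpQ
    have hQe : Ideal.span {(p : SV S V)} = Q := by
      refine eq_of_height_one _ Q ?_ hle hQ
      intro h
      exact hp0 (Ideal.span_singleton_eq_bot.1 h)
    refine InC_principal (algebraMap (SV S V) (Localization.AtPrime Q) (p : SV S V)) ?_ ?_
    · intro h
      rw [IsLocalization.map_eq_zero_iff Q.primeCompl] at h
      obtain ⟨c, hc⟩ := h
      rcases mul_eq_zero.1 hc with h1 | h1
      · exact c.2 (by rw [h1]; exact Q.zero_mem)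
      · exact hp0 h1
    · rw [← Localization.AtPrime.map_eq_maximalIdeal]
      refine (congrArg (Ideal.map (algebraMap (SV S V) (Localization.AtPrime Q))) hQe).symm.trans ?_
      rw [Ideal.map_span, Set.image_singleton]
  · by_cases hQP : Q = PV S V
    · subst hQP
      obtain ⟨hA, D, L, h⟩ := cl_SWP S V inferInstance
      have hc : CharZero (FractionRing V) :=
        charZero_of_injective_algebraMap (IsFractionRing.injective V (FractionRing V))
      exact InC_of_qhg (FractionRing V) _ (qhg_of_QD h)
    · obtain ⟨hA, hJ⟩ := cl_SWD S V p hp Q hQ hpQ hQP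
      have hbot : (⊥ : Ideal (Localization.AtPrime Q)).IsPrime := Ideal.isPrime_bot
      refine InC.differential ℚ (Localization.AtPrime Q) ⊥
        (fun J h1 h2 => le_of_eq (hJ J h1 h2)) ?_
      refine InC.field _ ?_
      rw [IsLocalRing.isField_iff_maximalIdeal_eq, ← Localization.AtPrime.map_eq_maximalIdeal,
        Ideal.map_bot]

/-- `V[[G]]` is in the class. -/
theorem sg_V (V K : Type) [CommRing V] [IsDomain V] [CharZero V]
    [IsDiscreteValuationRing V] [Field K] (r : V →+* K) (p : ℕ)
    (hp : Irreducible (p : V)) (hr : Function.Surjective r)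
    (hker : RingHom.ker r = Ideal.span {(p : V)}) [IsAdicComplete (Ideal.span {(p : V)}) V]
    [IsLocalRing (S.R K)] [IsNoetherianRing (S.R K)] (hG : Gorenstein (S.R K)) :
    InC (S.R K) := by
  classical
  obtain ⟨hloc, hnoe, hmax⟩ := cl_SWN S V
  obtain ⟨φ, hφ, hφk, -⟩ := cl_SWQ S V K r (p : V) hr hker
  rw [map_natCast] at hφk
  have hcomp : IsAdicComplete (Ideal.span {(p : SV S V)}) (SV S V) := by
    have h1 := cl_SWC S V (p : V)
    rwa [map_natCast] at h1
  have hpmax : (p : SV S V) ∈ IsLocalRing.maximalIdeal (SV S V) := by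
    rw [hmax, map_natCast]
    rw [IsLocalRing.mem_maximalIdeal, mem_nonunits_iff]
    exact hp.not_isUnit
  have hp0 : (p : SV S V) ≠ 0 := by
    intro h
    have h1 := congrArg (ev S V) h
    rw [map_natCast, map_zero] at h1
    exact hp.ne_zero h1
  let e : (SV S V ⧸ Ideal.span {(p : SV S V)}) ≃+* S.R K :=
    (Ideal.quotEquivOfEq hφk.symm).trans (RingHom.quotientKerEquivOfSurjective hφ)
  have hloc' : IsLocalRing (SV S V ⧸ Ideal.span {(p : SV S V)}) :=
    RingEquiv.isLocalRing e.symm
  have hGV : Gorenstein (SV S V) := by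
    obtain ⟨xs, h1, h2, h3, h4⟩ := hG
    have h5 := cl_GIS _ _ e.symm xs (gorL_of h1 h2 h3 h4)
    obtain ⟨ys, hys⟩ := cl_LGO (SV S V) (p : SV S V) _ hpmax
      (fun a ha => (mul_eq_zero.1 ha).resolve_left hp0) h5
    exact gorenstein_of_GorL hys
  have hV : InC (SV S V) := by
    let q : Ideal (SV S V) → Ideal (SV S V) := fun P =>
      if P.IsPrime then P else IsLocalRing.maximalIdeal (SV S V)
    have hq : ∀ P : Ideal (SV S V), P.IsPrime → q P = P := fun P hP => if_pos hP
    have hqp : ∀ P, (q P).IsPrime := by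
      intro P
      by_cases hP : P.IsPrime
      · rw [hq P hP]
        exact hP
      · show (if P.IsPrime then P else IsLocalRing.maximalIdeal (SV S V)).IsPrime
        rw [if_neg hP]
        exact (IsLocalRing.maximalIdeal.isMaximal _).isPrime
    refine InC.codimOne (SV S V) q hGV (fun P hP _ => (hq P hP).ge) fun P hP hh => ?_
    by_cases h0 : q P = ⊥
    · refine InC.field _ ?_
      rw [IsLocalRing.isField_iff_maximalIdeal_eq, ← Localization.AtPrime.map_eq_maximalIdeal]
      refine (congrArg (Ideal.map (algebraMap (SV S V) (Localization.AtPrime (q P)))) h0).trans ?_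
      exact Ideal.map_bot
    · refine sg_height_one S V K r p hp hr hker (q P) (le_antisymm (by rw [hq P hP]; exact hh) ?_)
      exact Order.one_le_iff_pos.2 (lt_of_le_of_lt zero_le
        (Ideal.height_strict_mono_of_isPrime (bot_lt_iff_ne_bot.2 h0)))
  have h6 := InC.quotient (SV S V) (p : SV S V) hpmax (mem_nonZeroDivisors_of_ne_zero hp0) hV
  exact InC_iso e.symm h6

/-- All fields. -/
theorem sg_all (K : Type) [Field K] : ∃ (_ : IsLocalRing (S.R K)) (_ : IsNoetherianRing (S.R K)),
    ringKrullDim (S.R K) = 1 ∧ Gorenstein (S.R K) ∧ InC (S.R K) := by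
  have main : ∀ (K : Type) [Field K], (CharZero K ∨ ∃ p, ∃ _ : Fact p.Prime, ∃ _ : CharP K p,
      PerfectRing K p) → ∃ (_ : IsLocalRing (S.R K)) (_ : IsNoetherianRing (S.R K)),
      ringKrullDim (S.R K) = 1 ∧ Gorenstein (S.R K) ∧ InC (S.R K) := by
    intro K _ h
    obtain ⟨h1, h2, h3, h4, h5⟩ := ARS.cl_pack S K
    refine ⟨h1, h2, h4.1, h4.2, ?_⟩
    rcases h with h | ⟨p, hp, hc, hpf⟩
    · exact sg_zero S K h3 h4 h5
    · have := witt_charZero p K
      exact sg_V S (WittVector p K) K WittVector.constantCoeff p (WittVector.irreducible p)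
        (WittVector.constantCoeff_surjective p) WittVector.ker_constantCoeff h4.2
  obtain ⟨h1, h2, h3, h4, h5⟩ := ARS.cl_pack S K
  refine ⟨h1, h2, h4.1, h4.2, ?_⟩
  rcases CharP.exists' K with h | ⟨p, hp, hc⟩
  · obtain ⟨_, _, _, _, h6⟩ := main K (Or.inl h)
    exact h6
  · have hcl : CharP (AlgebraicClosure K) p :=
      (Algebra.charP_iff K (AlgebraicClosure K) p).1 hc
    obtain ⟨g1, g2, g3, g4, g5⟩ := main (AlgebraicClosure K) (Or.inr ⟨p, hp, hcl, inferInstance⟩)
    obtain ⟨hA, hF, hco⟩ := cl_SWL S K (AlgebraicClosure K) (algebraMap K (AlgebraicClosure K))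
    obtain ⟨_, _, hmaxL, _, _⟩ := ARS.cl_pack S (AlgebraicClosure K)
    let hA' : Algebra (S.R K) (S.R (AlgebraicClosure K)) := hA
    have hF' : Module.Flat (S.R K) (S.R (AlgebraicClosure K)) := hF
    have hlh : IsLocalHom (algebraMap (S.R K) (S.R (AlgebraicClosure K))) := by
      refine ⟨fun a ha => ?_⟩
      by_contra hna
      have h6 : a ∈ IsLocalRing.maximalIdeal (S.R K) := hna
      rw [h3] at h6
      have h7 : algebraMap (S.R K) (S.R (AlgebraicClosure K)) a ∈
          IsLocalRing.maximalIdeal (S.R (AlgebraicClosure K)) := by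
        rw [hmaxL]
        refine (hco a 0).trans ?_
        rw [h6, map_zero]
      exact h7 ha
    exact InC.descent (S.R K) (S.R (AlgebraicClosure K)) g5

end semigroup
/-- (1) The rings of the class `InC` satisfy (ARC).
(2) Let `A = ⊕ A_n`, `n ≥ 0`, be a Noetherian graded algebra over a field `K` of characteristic
zero, `A_0 = K`, `m` the ideal of the elements with component of degree zero equal to zero, and let
`A_m` be Gorenstein. Then `A_m` is quasi-homogeneous Gorenstein, and if `A` is reduced then `A_m` is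
in the class.
(3) The completion of a quasi-homogeneous Gorenstein ring is quasi-homogeneous Gorenstein.
(4) For every symmetric numerical semigroup `G` and every field `K` the ring `K[[G]]` is a
one-dimensional Gorenstein local domain of the class, so it satisfies (ARC).
(5) For one symmetric numerical semigroup `G` the ring `K[[G]]` fails (HWC) for every field `K`.
So, for every field `K`, this one-dimensional Gorenstein local domain satisfies (ARC) and fails
(HWC). -/
theorem result :
    (∀ (R : Type) [CommRing R] [IsLocalRing R], InC R → ARC R) ∧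
    (∀ (K A : Type) [Field K] [CharZero K] [CommRing A] [Algebra K A] [IsNoetherianRing A]
      (𝒜 : ℕ → Submodule K A) [GradedAlgebra 𝒜], (∀ a ∈ 𝒜 0, ∃ c : K, algebraMap K A c = a) →
      ∀ (m : Ideal A) [m.IsPrime], (∀ a, a ∈ m ↔ GradedRing.proj 𝒜 0 a = 0) →
      Gorenstein (Localization.AtPrime m) →
      QuasiHomogeneousGorenstein K (Localization.AtPrime m) ∧
        (IsReduced A → InC (Localization.AtPrime m))) ∧
    (∀ (K S : Type) [Field K] [CommRing S] [IsLocalRing S] [IsNoetherianRing S] [Algebra K S],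
      QuasiHomogeneousGorenstein K S →
      ∃ _ : IsNoetherianRing (AdicCompletion (IsLocalRing.maximalIdeal S) S),
        QuasiHomogeneousGorenstein K (AdicCompletion (IsLocalRing.maximalIdeal S) S)) ∧
    (∀ (G : AddSubmonoid ℕ) (F : ℕ), IsSymmetric G F → ∀ (K : Type) [Field K],
      ∃ (_ : IsLocalRing (SR G K)) (_ : IsNoetherianRing (SR G K)),
        ringKrullDim (SR G K) = 1 ∧ Gorenstein (SR G K) ∧ InC (SR G K)) ∧
    (∃ (G : AddSubmonoid ℕ) (F : ℕ), IsSymmetric G F ∧ ∀ (K : Type) [Field K],
      ¬ HWC (SR G K)) := by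
  refine ⟨?_, ?_, ?_, ?_, ?_⟩
  · intro R _ _ h
    have hA : ARS.ARC R := ARD.ARC_of_ARCe R (arce_of_InC h)
    exact @hA
  · intro K A _ _ _ _ _ 𝒜 _ h0 m _ hm hG
    have h1 := graded 𝒜 h0 m hm hG
    refine ⟨h1, fun hr => ?_⟩
    have hr' : IsReduced (Localization.AtPrime m) :=
      isReduced_localizationPreserves m.primeCompl _ hr
    have hn : IsNoetherianRing (Localization.AtPrime m) :=
      IsLocalization.isNoetherianRing m.primeCompl _ inferInstance
    exact InC_of_qhg K _ h1
  · intro K S _ _ _ _ _ h
    exact qhg_completion h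
  · intro G F h K _
    rw [SR_eq G F h K]
    exact sg_all (sg G F h) K
  · have hmem : ∀ n, n ∈ AddSubmonoid.closure {g : ℕ | g ∈ HWG.gens} ↔ HWG.GG.G n := HWG.mem_iff
    have hsym : IsSymmetric (AddSubmonoid.closure {g : ℕ | g ∈ HWG.gens}) HWG.GG.F := by
      refine ⟨fun n hn => (hmem n).2 (HWG.GG.big n hn), fun n hn => ?_⟩
      rw [hmem, hmem]
      exact HWG.GG.sym n hn
    refine ⟨_, _, hsym, fun K _ hW => ?_⟩
    have e : SR (AddSubmonoid.closure {g : ℕ | g ∈ HWG.gens}) K = HWG.GG.R K := by
      ext f
      show (∀ n, PowerSeries.coeff n f ≠ 0 → n ∈ AddSubmonoid.closure {g : ℕ | g ∈ HWG.gens}) ↔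
        (∀ n, PowerSeries.coeff n f ≠ 0 → HWG.GG.G n)
      exact forall_congr' fun n => imp_congr_right fun _ => hmem n
    rw [e] at hW
    obtain ⟨_, _, _, _, hrefl, hfree⟩ := HWG.final K
    have htf : NoZeroSMulDivisors (HWG.GG.R K)
        (Ideal.span {HWG.GG.x K, HWG.GG.y K 18} : Ideal (HWG.GG.R K)) :=
      ⟨fun {c x} hx => by
        have h1 : c * (x : HWG.GG.R K) = 0 := congrArg Subtype.val hx
        rcases mul_eq_zero.1 h1 with h2 | h2
        · exact Or.inl h2
        · exact Or.inr (Subtype.ext h2)⟩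
    exact hfree (hW _ hrefl)

end Pool.Agent.Results.MP_7dc157_al.ArcAnyDimension
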