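import Pool.Agent.HWN.ProofN

/-!
# MP_7dc157_al: (HWC) for ideals in codimension two

`GorOne R`: the Noetherian local domain `R` is one-dimensional and Gorenstein, in the words of the
frozen statement (`Pool/Agent/HWC/Defs.lean`).  The statement is spelled out in
`Pool/Agent/HWN/Clauses.lean`.
-/

set_option autoImplicit false

namespace Pool.Agent.Results.MP_7dc157_al.CodimensionTwo

open Pool.Agent.HWN

/-- `CodimTwo`: let `R` be a one-dimensional Gorenstein local domain with maximal ideal
`(x, y, z)`, `x ≠ 0`, such that `R / x R` contains a field (for instance, such that `R` contains a
field). A finitely generated torsionfree `R`-module `M` with `M ⊗ M*` reflexive is free, if its rank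
is at most one, or if `M` or `M*` is generated by one element more than the rank. -/
theorem result : CodimTwo := codimTwo

end Pool.Agent.Results.MP_7dc157_al.CodimensionTwo
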