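import Pool.Agent.HWS.Final

/-!
# MP_7dc157_al: (HWC) passes from `S` to `S[X]/(f)`

`GorOne R`: the Noetherian local domain `R` is one-dimensional and Gorenstein, in the words of the
frozen statement; `HWC R`: every finitely generated torsionfree `R`-module `M` with `M ⊗ M*` reflexive
is free (`Pool/Agent/HWC/Defs.lean`).  The class `Tower` is in `Pool/Agent/HWS/Clauses.lean`, free
numerical semigroups and `k⟦H⟧` in `Pool/Agent/HWC/SGDefs.lean`.
-/

set_option autoImplicit false

namespace Pool.Agent.Results.MP_7dc157_al.FiniteExtensions

open Pool.Agent.HWS

/-- `TowerClosure`: let `Tower` be the least class of rings which contains the discrete valuation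
rings, the semigroup rings of free numerical semigroups and all one-dimensional Gorenstein local
domains with (HWC), and which contains with a local domain `S`

* every local domain `R = S[y] = S[X]/(f)`, `f` monic, with `y` in the maximal ideal of `R`, or with
  `y ^ p ^ a ∈ S + m_R` for a prime `p` in the maximal ideal of `S`;
* every one-dimensional Gorenstein local domain `R = S[y_1, …, y_c]`, free over `S` of rank
  `n_1 ⋯ n_c`, with `y_i ^ n_i ∈ x R` for one `x ≠ 0` in the maximal ideal of `S` (or, for a prime
  `p ∈ x S`, also `n_i = p ^ a` and `y_i ^ n_i ∈ S + x R`).

Then every ring of this class is a one-dimensional Gorenstein local domain and satisfies (HWC). -/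
theorem result : TowerClosure := towerClosure

end Pool.Agent.Results.MP_7dc157_al.FiniteExtensions
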