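import Pool.Agent.HWG.Final

/-!
# MP_7dc157_al: (HWC) fails for a two-generated monomial ideal of a semigroup ring; (A) is false

`StatementA` and `StatementB` are, word for word, the conclusion and the hypothesis of the frozen
statement S02051: (A) every one-dimensional Gorenstein local domain satisfies (HWC), and (B) every
Gorenstein local domain satisfies (ARC).

`G` is the numerical semigroup generated by 33 integers between 72 and 131.  It is symmetric with
Frobenius number 239, the number 18 is not in `G`, and every arithmetic sequence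
`x, x + 18, x + 36` in `G` is a sum of two sequences `y, y + 18` and `z, z + 18` in `G`.  For
every field `K` the ring `R = K[[G]]` is a one-dimensional Gorenstein local domain with residue
field `K`, and for the ideal `I = (t^240, t^258)`, which is not principal, `I ⊗ I*` is reflexive.
-/

set_option autoImplicit false

namespace Pool.Agent.Results.MP_7dc157_al.SemigroupRings

/-- A Noetherian local domain `R` is one-dimensional and Gorenstein, in the words of the frozen
statement. -/
def OneDimGorenstein (R : Type) [CommRing R] [IsLocalRing R] : Prop :=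
  ringKrullDim R = 1 ∧
  ∃ xs : List R, (∀ x ∈ xs, x ∈ IsLocalRing.maximalIdeal R) ∧
    RingTheory.Sequence.IsRegular R xs ∧
    ((xs.length : ℕ∞) : WithBot ℕ∞) = ringKrullDim R ∧
    InfIrred (Ideal.span {r : R | r ∈ xs})

/-- Statement (A): every one-dimensional Gorenstein local domain satisfies (HWC). -/
def StatementA : Prop :=
  ∀ (R : Type) [CommRing R] [IsDomain R] [IsLocalRing R] [IsNoetherianRing R],
    ringKrullDim R = 1 →
    (∃ xs : List R, (∀ x ∈ xs, x ∈ IsLocalRing.maximalIdeal R) ∧
      RingTheory.Sequence.IsRegular R xs ∧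
      ((xs.length : ℕ∞) : WithBot ℕ∞) = ringKrullDim R ∧
      InfIrred (Ideal.span {r : R | r ∈ xs})) →
    ∀ (M : Type) [AddCommGroup M] [Module R M] [Module.Finite R M] [NoZeroSMulDivisors R M],
      Module.IsReflexive R (TensorProduct R M (Module.Dual R M)) →
      Module.Free R M

/-- Statement (B): every Gorenstein local domain, of any dimension, satisfies (ARC). -/
def StatementB : Prop :=
  ∀ (R : Type) [CommRing R] [IsDomain R] [IsLocalRing R] [IsNoetherianRing R],
    (∃ xs : List R, (∀ x ∈ xs, x ∈ IsLocalRing.maximalIdeal R) ∧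
      RingTheory.Sequence.IsRegular R xs ∧
      ((xs.length : ℕ∞) : WithBot ℕ∞) = ringKrullDim R ∧
      InfIrred (Ideal.span {r : R | r ∈ xs})) →
    ∀ [CategoryTheory.HasExt.{0} (ModuleCat.{0} R)],
    ∀ (M : Type) [AddCommGroup M] [Module R M] [Module.Finite R M],
      (∀ i : ℕ, 1 ≤ i →
        Subsingleton (CategoryTheory.Abelian.Ext (ModuleCat.of R M) (ModuleCat.of R M) i) ∧
        Subsingleton (CategoryTheory.Abelian.Ext (ModuleCat.of R M) (ModuleCat.of R R) i)) →
      Module.Free R M

/-- The 33 generators; `List.range' 96 12` is the list of the integers from 96 to 107. -/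
def gens : List ℕ := [72, 75, 76, 80, 81, 85, 90, 93, 94, 109, 110, 113, 114, 115, 118, 120, 122,
  123, 127, 128, 131] ++ List.range' 96 12

/-- The numerical semigroup generated by the 33 integers. -/
def G : AddSubmonoid ℕ := AddSubmonoid.closure {n | n ∈ gens}

/-- `S` is symmetric with Frobenius number `F`. -/
def IsSymmetric (S : AddSubmonoid ℕ) (F : ℕ) : Prop :=
  (∀ n, F < n → n ∈ S) ∧ ∀ n, n ≤ F → (n ∈ S ↔ F - n ∉ S)

/-- Every arithmetic sequence `x, x + s, x + 2 s` in `S` is the sum of two sequences `y, y + s` and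
`z, z + s` in `S`. -/
def Decompose (S : AddSubmonoid ℕ) (s : ℕ) : Prop :=
  ∀ x, x ∈ S → x + s ∈ S → x + 2 * s ∈ S →
    ∃ y z, x = y + z ∧ y ∈ S ∧ y + s ∈ S ∧ z ∈ S ∧ z + s ∈ S

/-- The semigroup ring `K[[G]]`: the power series all of whose exponents are in `G`. -/
def R (K : Type) [Field K] : Subring (PowerSeries K) where
  carrier := {f | ∀ n, PowerSeries.coeff n f ≠ 0 → n ∈ G}
  zero_mem' := fun n hn => absurd (map_zero _) hn
  one_mem' := by
    intro n hn
    rw [PowerSeries.coeff_one] at hn
    split_ifs at hn with h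
    · rw [h]; exact G.zero_mem
    · exact absurd rfl hn
  add_mem' := by
    intro f g hf hg n hn
    by_contra h
    apply hn
    have h1 : PowerSeries.coeff n f = 0 := by by_contra h1; exact h (hf n h1)
    have h2 : PowerSeries.coeff n g = 0 := by by_contra h2; exact h (hg n h2)
    rw [map_add, h1, h2, add_zero]
  neg_mem' := by
    intro f hf n hn
    apply hf n
    intro h
    apply hn
    rw [map_neg, h, neg_zero]
  mul_mem' := by
    intro f g hf hg n hn
    rw [PowerSeries.coeff_mul] at hn
    obtain ⟨p, hp, hne⟩ := Finset.exists_ne_zero_of_sum_ne_zero hn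
    rw [← Finset.HasAntidiagonal.mem_antidiagonal.1 hp]
    exact G.add_mem (hf _ (left_ne_zero_of_mul hne)) (hg _ (right_ne_zero_of_mul hne))

/-- `I ⊗ I*` is reflexive although `I` is not free. -/
def IsCounterexample (R : Type) [CommRing R] (I : Ideal R) : Prop :=
  Module.IsReflexive R (TensorProduct R I (Module.Dual R I)) ∧ ¬ Module.Free R I

/-- The subring `T` of `K[[t]]` is a Noetherian local ring of dimension one, Gorenstein, its maximal
ideal is the set of the series with constant term 0, and the ideal `(t^m, t^n)` of `T` is a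
counterexample to (HWC). -/
def FailsFor (K : Type) [Field K] (T : Subring (PowerSeries K)) (m n : ℕ) : Prop :=
  ∃ (_ : IsLocalRing T) (_ : IsNoetherianRing T),
    (∀ f : T, f ∈ IsLocalRing.maximalIdeal T ↔
      PowerSeries.constantCoeff (f : PowerSeries K) = 0) ∧
    OneDimGorenstein T ∧
    ∃ a b : T, (a : PowerSeries K) = PowerSeries.X ^ m ∧ (b : PowerSeries K) = PowerSeries.X ^ n ∧
      IsCounterexample T (Ideal.span {a, b})

theorem mem_gens (g : ℕ) : g ∈ gens ↔ g ∈ HWG.gens := by
  constructor
  · intro h
    have : ∀ g ∈ gens, g ∈ HWG.gens := by decide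
    exact this g h
  · intro h
    have : ∀ g ∈ HWG.gens, g ∈ gens := by decide
    exact this g h

theorem mem_G (n : ℕ) : n ∈ G ↔ HWG.GG.G n := by
  rw [← HWG.mem_iff]
  have e : {g : ℕ | g ∈ gens} = {g : ℕ | g ∈ HWG.gens} := by
    ext g
    exact mem_gens g
  rw [G, e]

theorem R_eq (K : Type) [Field K] : R K = HWG.GG.R K := by
  ext f
  show (∀ n, PowerSeries.coeff n f ≠ 0 → n ∈ G) ↔ (∀ n, PowerSeries.coeff n f ≠ 0 → HWG.GG.G n)
  exact forall_congr' fun n => imp_congr_right fun _ => mem_G n

theorem rings (K : Type) [Field K] : FailsFor K (HWG.GG.R K) 240 258 := by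
  obtain ⟨h1, h2, h3, h4, h5, h6⟩ := HWG.final K
  exact ⟨h1, h2, fun f => by rw [h3 f, PowerSeries.coeff_zero_eq_constantCoeff_apply], h4,
    HWG.GG.x K, HWG.GG.y K 18, rfl, rfl, h5, h6⟩

/-- (1) `G` is symmetric with Frobenius number 239, 18 is not in `G`, and every arithmetic sequence
`x, x + 18, x + 36` in `G` is a sum of two sequences `y, y + 18` and `z, z + 18` in `G`.
(2) For every field `K` the ring `R = K[[G]]` is a one-dimensional Gorenstein (Noetherian) local
domain whose maximal ideal is the set of the series with constant term 0 (so the residue field is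
`K`), and the monomial ideal `I = (t^240, t^258)` is not free (that is, not principal) although
`I ⊗ I*` is reflexive.
(3) So (A) is false, and the frozen statement S02051, (B) implies (A), holds if and only if (B) is
false. -/
theorem result :
    (IsSymmetric G 239 ∧ 18 ∉ G ∧ Decompose G 18) ∧
    (∀ (K : Type) [Field K], FailsFor K (R K) 240 258) ∧
    ¬ StatementA ∧ ((StatementB → StatementA) ↔ ¬ StatementB) := by
  have hA : ¬ StatementA := by
    intro h
    obtain ⟨_, _, _, ⟨hdim, hgor⟩, a, b, _, _, hrefl, hfree⟩ := rings ℚ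
    have htf : NoZeroSMulDivisors (HWG.GG.R ℚ) (Ideal.span {a, b} : Ideal (HWG.GG.R ℚ)) :=
      ⟨fun {c x} hx => by
        have h1 : c * (x : HWG.GG.R ℚ) = 0 := congrArg Subtype.val hx
        rcases mul_eq_zero.1 h1 with h2 | h2
        · exact Or.inl h2
        · exact Or.inr (Subtype.ext h2)⟩
    exact hfree (h (HWG.GG.R ℚ) hdim hgor (Ideal.span {a, b} : Ideal (HWG.GG.R ℚ)) hrefl)
  refine ⟨⟨⟨?_, ?_⟩, ?_, ?_⟩, fun K _ => by rw [R_eq]; exact rings K, hA, fun h hB => hA (h hB),
    fun hB h => absurd h hB⟩
  · intro n hn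
    rw [mem_G]
    exact HWG.GG.big n hn
  · intro n hn
    rw [mem_G, mem_G]
    exact HWG.GG.sym n hn
  · rw [mem_G]
    exact HWG.bad.1
  · intro x h0 h1 h2
    rw [mem_G] at h0 h1 h2
    obtain ⟨y, z, hx, hy, hy', hz, hz'⟩ := HWG.bad_all x h0 h1 h2
    exact ⟨y, z, hx, (mem_G _).2 hy, (mem_G _).2 hy', (mem_G _).2 hz, (mem_G _).2 hz'⟩

end Pool.Agent.Results.MP_7dc157_al.SemigroupRings
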